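import Pool.Agent.H629.TA.Stm

set_option autoImplicit false

/-! Second factorial moment of the number of new triangles. -/

open Finset

namespace Pool.Agent.H922.TA.PX

open Pool.Agent.H629.TA

theorem mult_self (m : ℕ) (h : Hist m) (a : ℕ) : mult m h a a = 0 := by
  unfold mult
  rw [if_pos rfl]

theorem mult_comm (m : ℕ) (h : Hist m) (a b : ℕ) : mult m h a b = mult m h b a := by
  unfold mult
  rw [max_comm a b, min_comm a b]
  by_cases hab : a = b
  · rw [if_pos hab, if_pos hab.symm]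
  · rw [if_neg hab, if_neg (Ne.symm hab)]

theorem t_PX : S_XX → S_TR → S_TW → S_PX := by
  intro hXX hTR hTW m δ hm hδ
  obtain ⟨C, hC, hXX⟩ := hXX m
  refine ⟨4 * C, by positivity, ?_⟩
  intro k h hk hV
  obtain ⟨-, hT, -⟩ := hTW m k h hk hV
  set x : ℕ → ℝ := fun a => wt m δ h k a with hx
  set L : ℝ := tot m δ k with hL
  have hdeg : ∀ a, (0 : ℝ) ≤ (deg m h k a : ℝ) := fun a => Nat.cast_nonneg _
  have hdx : ∀ a, (deg m h k a : ℝ) ≤ x a := fun a => by
    simp only [hx, wt]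
    linarith
  have hx0 : ∀ a, 0 < x a := fun a => by
    simp only [hx, wt]
    linarith [hdeg a]
  have hLs : ∑ a ∈ Icc 1 k, x a = L := hT δ
  have hL0 : 0 < L := by
    rw [← hLs]
    exact Finset.sum_pos (fun a _ => hx0 a) ⟨1, Finset.mem_Icc.2 ⟨le_rfl, by omega⟩⟩
  set ξ : (Fin m → ℕ) → ℝ := fun j => (1 / 2) * ∑ a ∈ Icc 1 k, ∑ b ∈ Icc 1 k,
    (mult m h a b : ℝ) * ((cnt j a : ℝ) * (cnt j b : ℝ)) with hξ
  have h1 := hXX (Icc 1 k) x L (fun a _ => hx0 a) hL0 hLs (mult m h) (mult_self m h)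
    (mult_comm m h) ξ (fun j => rfl)
  have h2 : step m δ k (fun h' => (xi m k h' : ℝ) * ((xi m k h' : ℝ) - 1)) h =
      draw m (Icc 1 k) (fun a => x a / L) (fun j => ξ j * (ξ j - 1)) := by
    unfold step draw
    refine Finset.sum_congr rfl fun j hj => ?_
    beta_reduce
    rw [(hTR m k h j hk (Fintype.mem_piFinset.1 hj)).2.2]
  rw [h2]
  refine h1.trans ?_
  have hM0 : ∀ a b, (0 : ℝ) ≤ (mult m h a b : ℝ) := fun a b => Nat.cast_nonneg _
  have hQ : ∑ a ∈ Icc 1 k, ∑ b ∈ Icc 1 k, ((mult m h a b : ℝ) * ((mult m h a b : ℝ) - 1)) *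
      (x a * x b) = QQ m δ k h := rfl
  have hQ0 : 0 ≤ QQ m δ k h := by
    rw [← hQ]
    refine Finset.sum_nonneg fun a _ => Finset.sum_nonneg fun b _ => ?_
    refine mul_nonneg ?_ (mul_nonneg (hx0 a).le (hx0 b).le)
    rcases Nat.eq_zero_or_pos (mult m h a b) with h0 | h0
    · rw [h0]
      simp
    · have h3 : (1 : ℝ) ≤ (mult m h a b : ℝ) := by exact_mod_cast h0
      exact mul_nonneg (hM0 a b) (by linarith)
  have hW : ∑ a ∈ Icc 1 k, ∑ b ∈ Icc 1 k, (mult m h a b : ℝ) * (x a * x b) =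
      2 * WW m δ k h := by
    have h3 : WW m δ k h =
      (1 / 2) * ∑ a ∈ Icc 1 k, ∑ b ∈ Icc 1 k, (mult m h a b : ℝ) * (x a * x b) := rfl
    rw [h3]
    ring
  have hVle : ∑ a ∈ Icc 1 k, x a * (∑ b ∈ Icc 1 k, (mult m h a b : ℝ) * x b) ^ 2 ≤
      VV m δ k h := by
    unfold VV
    refine Finset.sum_le_sum fun a _ => ?_
    have h3 : (∑ b ∈ Icc 1 k, (mult m h a b : ℝ) * x b) ^ 2 ≤
        (∑ b ∈ Icc 1 k, (mult m h a b : ℝ)) * ∑ b ∈ Icc 1 k, (mult m h a b : ℝ) * x b ^ 2 := by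
      refine Finset.sum_sq_le_sum_mul_sum_of_sq_le_mul _ (fun b _ => hM0 a b)
        (fun b _ => mul_nonneg (hM0 a b) (sq_nonneg _)) (fun b _ => le_of_eq ?_)
      ring
    have h4 : ∑ b ∈ Icc 1 k, (mult m h a b : ℝ) = (deg m h k a : ℝ) := by
      unfold deg
      rw [Nat.cast_sum]
    rw [h4] at h3
    have h5 : 0 ≤ ∑ b ∈ Icc 1 k, (mult m h a b : ℝ) * x b ^ 2 :=
      Finset.sum_nonneg fun b _ => mul_nonneg (hM0 a b) (sq_nonneg _)
    calc x a * (∑ b ∈ Icc 1 k, (mult m h a b : ℝ) * x b) ^ 2 ≤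
        x a * (x a * ∑ b ∈ Icc 1 k, (mult m h a b : ℝ) * x b ^ 2) :=
          mul_le_mul_of_nonneg_left (h3.trans (mul_le_mul_of_nonneg_right (hdx a) h5)) (hx0 a).le
      _ = ∑ b ∈ Icc 1 k, (mult m h a b : ℝ) * (x a ^ 2 * x b ^ 2) := by
          rw [Finset.mul_sum, Finset.mul_sum]
          exact Finset.sum_congr rfl fun b _ => by ring
      _ ≤ _ := by
          refine Finset.sum_le_sum fun b _ => ?_
          refine mul_le_mul_of_nonneg_left ?_ (hM0 a b)
          have g1 : x a ^ 2 ≤ wt m δ h k a * (wt m δ h k a + 1) := by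
            have g2 := (hx0 a).le
            have g3 : wt m δ h k a * (wt m δ h k a + 1) = x a ^ 2 + x a := by
              simp only [hx]
              ring
            rw [g3]
            linarith
          have g4 : x b ^ 2 ≤ wt m δ h k b * (wt m δ h k b + 1) := by
            have g2 := (hx0 b).le
            have g3 : wt m δ h k b * (wt m δ h k b + 1) = x b ^ 2 + x b := by
              simp only [hx]
              ring
            rw [g3]
            linarith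
          exact mul_le_mul g1 g4 (sq_nonneg _) ((sq_nonneg _).trans g1)
  have hV0 : 0 ≤ VV m δ k h :=
    (Finset.sum_nonneg fun a _ => mul_nonneg (hx0 a).le (sq_nonneg _)).trans hVle
  rw [hQ, hW, mul_assoc 4 C, mul_left_comm 4 C]
  refine mul_le_mul_of_nonneg_left ?_ hC
  have e1 : 0 ≤ QQ m δ k h / L ^ 2 := by positivity
  have e2 : (∑ a ∈ Icc 1 k, x a * (∑ b ∈ Icc 1 k, (mult m h a b : ℝ) * x b) ^ 2) / L ^ 3 ≤
      VV m δ k h / L ^ 3 := div_le_div_of_nonneg_right hVle (by positivity)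
  have e3 : 0 ≤ VV m δ k h / L ^ 3 := by positivity
  have e4 : (2 * WW m δ k h) ^ 2 / L ^ 4 = 4 * (WW m δ k h ^ 2 / L ^ 4) := by ring
  rw [e4]
  linarith

end Pool.Agent.H922.TA.PX
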